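import Pool.Agent.Work.MP_b44cb1_al.Main

/-!
# MP_b44cb1_al, groups with elementary abelian Sylow subgroups

For every `r` the Fitting length of a finite soluble group all of whose Sylow subgroups are
elementary abelian and which satisfies `[x,_r y] = [x,_s y]` for some `s > r` is at most `f r`,
where `f 0 = 0` and `f (r+1) = 2 (r+1) (4 f r + 11) + 1`.
The conclusion is the one of the problem: a normal series of length `n ≤ f r` with nilpotent
factors (some term of the lower central series of `H (i+1)` lies in `H i`).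
-/

set_option autoImplicit false

namespace Pool.Agent.Results.MP_b44cb1_al.ElementarySylow

open Pool.Agent.Work.MP_b44cb1_al

theorem result :
    ∃ f : ℕ → ℕ, (f 0 = 0 ∧ ∀ r, f (r + 1) = 2 * ((r + 1) * (4 * f r + 11)) + 1) ∧
      ∀ r : ℕ, 1 ≤ r → ∀ (G : Type) [Group G] [Finite G], Group.IsSolvable G →
      (∀ p : ℕ, p.Prime → ∀ P : Sylow p G,
        (∀ a ∈ P, ∀ b ∈ P, a * b = b * a) ∧ ∀ a ∈ P, a ^ p = 1) →
      (∃ s : ℕ, r < s ∧ ∀ x y : G,
        (fun z : G => z⁻¹ * y⁻¹ * z * y)^[r] x = (fun z : G => z⁻¹ * y⁻¹ * z * y)^[s] x) →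
      ∃ n : ℕ, n ≤ f r ∧ ∃ H : ℕ → Subgroup G, H 0 = ⊥ ∧ H n = ⊤ ∧
        ∀ i : ℕ, i < n → (H i).Normal ∧ H i ≤ H (i + 1) ∧
          ∃ c : ℕ, (fun K : Subgroup G => ⁅K, H (i + 1)⁆)^[c] (H (i + 1)) ≤ H i := by
  refine ⟨hh, ⟨rfl, fun _ => rfl⟩, ?_⟩
  intro r hr G _ _ hs hsyl hlaw
  have hea : EA G := by
    intro p hp P hP
    haveI : Fact p.Prime := ⟨hp⟩
    obtain ⟨S, hS⟩ := hP.exists_le_sylow
    obtain ⟨h1, h2⟩ := hsyl p hp S
    exact ⟨fun a ha b hb => h1 a (hS ha) b (hS hb), fun a ha => h2 a (hS ha)⟩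
  obtain ⟨n, hn, H⟩ := main_ea r hr G hs hea hlaw
  exact ⟨n, Nat.lt_succ_iff.1 hn, H⟩

end Pool.Agent.Results.MP_b44cb1_al.ElementarySylow
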